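import Pool.Agent.TBP.Defs

set_option autoImplicit false

/-!
Squad TBP (MP_ba39b0_nt), statements of all rows, with complete proofs in the docstrings.
Definitions: Pool/Agent/TBP/Defs.lean.  Reusable library: Pool/Agent/Common_Sieve (Bonferroni.lean,
Product.lean, Count.lean: `cnt`, `count_crt`; Apps.lean), Pool/Agent/Common_Mertens/Mertens.lean
(`sum_inv_le`), `Pool.Agent.Common_Sieve.mertens_prod`, Pool/Agent/Helper46_MNO/Tau.lean (`tk`,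
`tk_coprime`, `tk_mul_le`, `tk_prime_pow`, ..), `Pool.Agent.Helper69_Weyl.exists_card_divisors_le`.
-/

namespace Pool.Agent.TBP

open Finset
open Pool.Agent.Common_Sieve Pool.Agent.Helper46_MNO

/-! ### Divisor function: the inequality `τ(m)^ρ ≤ 7 ∑_{d ∣ m, d ≤ m^(3/4)} GG d` -/

/-- CVX.  Proof: `2 ^ rho = e` (`rho = 1 / log 2`, `Real.rpow_def_of_pos`), `1 ≤ rho` (`log 2 < 1`).
Induction on `a` of `a (a+1)^ρ ≤ e ∑_{i<a} (i+1)^ρ`.  `a = 0`: both sides `0`.  Step: the right side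
increases by `e (a+1)^ρ = 2^ρ (a+1)^ρ`, so one needs
`(a+1) (a+2)^ρ ≤ a (a+1)^ρ + 2^ρ (a+1)^ρ`; divide by `(a+1)^(ρ+1)`: this is
`((a+2)/(a+1))^ρ ≤ (a/(a+1)) 1^ρ + (1/(a+1)) 2^ρ`, i.e. convexity of `x ↦ x^ρ` on `[0, ∞)`
(`convexOn_rpow`, `ρ ≥ 1`) at the points `1, 2` with weights `a/(a+1), 1/(a+1)`. -/
def CvxStmt : Prop := ∀ a : ℕ,
  (a : ℝ) * ((a : ℝ) + 1) ^ rho ≤ Real.exp 1 * ∑ i ∈ range a, ((i : ℝ) + 1) ^ rho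

/-- GSM.  Proof: `GG` and `tk rho` are multiplicative on coprime arguments (`tk_coprime`; for `GG`:
`Nat.Coprime.primeFactors_mul`, `Finset.prod_union`, and `(a*b).factorization p = a.factorization p`
for `p ∈ a.primeFactors` when `a, b` are coprime), `GG 1 = 1`, and `GG (p^i) = (i+1)^ρ - i^ρ` for
`i ≥ 1`, so `∑_{d ∣ p^k} GG d = 1 + ∑_{i=1}^k ((i+1)^ρ - i^ρ) = (k+1)^ρ = tk rho (p^k)`
(`Nat.divisors_prime_pow`, telescoping).  Then `Nat.recOnPosPrimePosCoprime` (or `Nat.recOnMul`-type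
induction) with `Nat.Coprime.sum_divisors_mul..` / the bijection of `(a*b).divisors` with
`a.divisors ×ˢ b.divisors` for coprime `a, b`; or: both sides are multiplicative arithmetic
functions, use `ArithmeticFunction.IsMultiplicative.eq_iff_eq_on_prime_powers`. -/
def GsmStmt : Prop :=
  (∀ m : ℕ, 0 ≤ GG m) ∧ (GG 1 = 1) ∧ (∀ a b : ℕ, Nat.Coprime a b → 0 < a → 0 < b →
    GG (a * b) = GG a * GG b) ∧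
  (∀ m : ℕ, 1 ≤ m → ∑ d ∈ m.divisors, GG d = tk rho m)

/-- DIV.  Proof.  Put `H(m) = ∑_{d ∣ m} GG(d) log(m/d)`.
(1) `H(m) ≥ (1/e) tk rho m · log m` for `m ≥ 1`: for coprime `a, b` the divisors of `ab` are `dd'` with
`d ∣ a`, `d' ∣ b`, so by GSM `H(ab) = H(a) tk(b) + tk(a) H(b)`, and the inequality passes from `a, b`
to `ab` (`log(ab) = log a + log b`).  For `m = p^k`: `H(p^k) = log p ∑_{i ≤ k} GG(p^i) (k - i)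
= log p ∑_{i<k} (∑_{l ≤ i} GG(p^l)) = log p ∑_{i<k} (i+1)^ρ ≥ log p · (k/e) (k+1)^ρ` by CVX.
(2) Let `Y = ∑_{d ∣ m, d^4 ≤ m^3} GG d`.  If `m = 1` then `Y = 1`.  If `m ≥ 2`: for `d^4 > m^3`
one has `log(m/d) ≤ (1/4) log m`, for all `d` `log(m/d) ≤ log m`; so
`(1/e) tk log m ≤ H ≤ (1/4) log m (tk - Y) + log m · Y`, i.e. `(1/e - 1/4) tk ≤ (3/4) Y`, and
`(4/3)(1/e - 1/4) ≥ 1/7` as `e < 2.7182818286` (`Real.exp_one_lt_d9`). -/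
def DivStmt : Prop := ∀ m : ℕ, 1 ≤ m →
  tk rho m ≤ 7 * ∑ d ∈ m.divisors.filter (fun d => d ^ 4 ≤ m ^ 3), GG d

/-! ### Euler products -/

/-- EUL.  Proof: induction on `P` (`N` fixed).  `P = ∅`: only `d = 1` (`Nat.primeFactors_eq_empty`),
empty product `= 1`.  Step `insert q P`, `q ∉ P` prime: map `d ↦ (a, d')`, `a = d.factorization q`,
`d' = d / q^a` (`ordCompl[q] d`); it is injective (`Nat.ordProj_mul_ordCompl_eq_self`), `a ≤ N`,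
`1 ≤ d' ≤ N`, `d'.primeFactors ⊆ P`, and the weight of `d` is (weight of `d'`) times (`u q a` if
`a ≥ 1`, `1` if `a = 0`).  So the sum is at most `(1 + ∑_{a ∈ Icc 1 N} u q a)` times the sum for
`P` (all terms are nonnegative). -/
def EulStmt : Prop := ∀ (P : Finset ℕ) (N : ℕ) (u : ℕ → ℕ → ℝ), (∀ p ∈ P, p.Prime) →
  (∀ p a, 0 ≤ u p a) →
  ∑ d ∈ (Icc 1 N).filter (fun d => d.primeFactors ⊆ P),
      ∏ p ∈ d.primeFactors, u p (d.factorization p)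
    ≤ ∏ p ∈ P, (1 + ∑ a ∈ Icc 1 N, u p a)

/-- LOC.  Proof: the term `a = 1` is `(2^ρ - 1)/p = (e - 1)/p`.  For `a ≥ 2`:
`(a+1)^ρ - a^ρ ≤ (a+1)^ρ ≤ (a+1)^2` (`ρ ≤ 2`: `log 2 > 1/2`) and `p^a ≥ p^2 2^(a-2)`, and
`∑_{a=2}^{N} (a+1)^2 / 2^(a-2) ≤ 36` (induction: `∑_{b<n} (b+3)^2/2^b = 36 - q(n)/2^n` with a
quadratic `q(n) ≥ 0`: `q(n) = 2 n^2 + 16 n + 36`; check `q(n) - q(n+1)/2 = (n+3)^2`). -/
def LocStmt : Prop := ∀ (p N : ℕ), p.Prime →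
  ∑ a ∈ Icc 1 N, (((a : ℝ) + 1) ^ rho - (a : ℝ) ^ rho) / (p : ℝ) ^ a
    ≤ (Real.exp 1 - 1) / p + 40 / (p : ℝ) ^ 2

/-- MER (Mertens in an interval).  Proof: `∑_{p ≤ x} 1/p ≤ log log (x+1) + C`
(`Pool.Agent.Common_Mertens.sum_inv_le`, read its exact form) and
`∏_{p < w} (1 - 1/p) ≤ 1/log w` (`Pool.Agent.Common_Sieve.mertens_prod`) with
`1 - 1/p ≥ exp(-1/p - 1/p^2)` (for `p ≥ 2`: `log(1-u) ≥ -u - u^2` for `0 ≤ u ≤ 1/2`), so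
`∑_{p < w} 1/p ≥ log log w - ∑ 1/p^2 ≥ log log w - 1`, then the same for `p ≤ w`.  Finally
`log log (x+1) ≤ log log x + 1` for `x ≥ 2`.  (For `w = x` the left side is `0`: take `M ≥ 0`.) -/
def MerStmt : Prop := ∃ M : ℝ, 0 ≤ M ∧ ∀ w x : ℕ, 2 ≤ w → w ≤ x →
  ∑ p ∈ (Ioc w x).filter Nat.Prime, (1 : ℝ) / p
    ≤ Real.log (Real.log x / Real.log w) + M

/-- PBM.  Proof: MER with `w = lw J (j+1) ≥ 2`, `x = lw J j = w^2` (`J - j = (J - (j+1)) + 1`), so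
`log x / log w = 2`.  (`J ≥ 1` because `j < J`.) -/
def PbmStmt : Prop := ∃ M : ℝ, 0 ≤ M ∧ ∀ J j : ℕ, j < J → ∑ p ∈ pb J j, (1 : ℝ) / p ≤ M

/-- EPA.  Proof.  Split `PP J j N k` into the big primes `p > lw J j` and the small primes
`p ≤ 2^J`, `p^(J+1) ∣ k` (`lw J j ≥ lw J J = 2^J`).
Small primes: `p ≤ 2^J` lies in no block (blocks contain primes `> lw J (i+1) ≥ 2^J`), so `hh = 1`
and the factor is `≤ 1 + (e-1)/2 + 10 ≤ 16 = 2^4`; they divide `k`, so the product is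
`≤ (2^(ω(k)))^4 ≤ τ(k)^4` (`2^ω(k) ≤ τ(k)`: e.g. the squarefree divisors, or
`Nat.card_divisors` = `∏ (v_p + 1)`).
Big primes: if `p ∈ pb J i` (`i < J`, unique) then `hh = (1 - κ/p)⁻¹ ≤ 1 + 2κ/p` with
`κ = kp θ i ≤ 2^i`, `2κ ≤ p` (`p > lw J (i+1) ≥ 2^J ≥ 2^(i+1)`), `κ ≥ 1`, so
`hh·((e-1)/p + 40/p²) ≤ (e-1)/p + 84 κ/p²`; otherwise (`p > lw J 0`) `hh = 1`.  With
`1 + x ≤ exp x` the product is `≤ exp((e-1) ∑_{lw J j < p ≤ N} 1/p + 84 ∑_i kp θ i ∑_{p ∈ pb J i}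
1/p² + 40 ∑_p 1/p²)`.  `∑_{p ∈ pb J i} 1/p² ≤ 1/lw J (i+1)` (`∑_{n > w} 1/n² ≤ 1/w`), and
`lw J (i+1) = 2^(J 2^(J-i-1)) ≥ 2^(J (J-i)) ≥ 2^J 2^(J-i-1)` (`2^(m-1) ≥ m`), so
`∑_{i<J} kp θ i/lw J (i+1) ≤ ∑_i 2^i 2^(-J) 2^(-(J-i-1)) ≤ 2`.  Finally MER: if `N ≥ lw J j` then
`exp((e-1) ∑ 1/p) ≤ e^{2M} (log N / log lw J j)^(e-1)` and
`log N ≤ 4 a J 2^J log 2`, `log (lw J j) = J 2^(J-j) log 2`, quotient `≤ 4 a 2^j` (`J ≥ 1`, `j ≤ J`);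
if `N < lw J j` there are no big primes and `(4 a 2^j)^(e-1) ≥ 1`. -/
def EpaStmt : Prop := ∃ C : ℝ, 1 ≤ C ∧ ∀ (θ : ℝ) (a J j N k : ℕ), 0 < θ → θ < 1 → 1 ≤ a → 1 ≤ J →
  j ≤ J → N ≤ (lw J 0) ^ (4 * a) → 1 ≤ k →
  ∏ p ∈ PP J j N k, (1 + hh θ J p * ((Real.exp 1 - 1) / p + 40 / (p : ℝ) ^ 2))
    ≤ C * (4 * (a : ℝ) * 2 ^ j) ^ (Real.exp 1 - 1) * (k.divisors.card : ℝ) ^ 4

/-- EPB.  Proof: EUL with `P = PP J j N k`, `u p a = hh θ J p ((a+1)^ρ - a^ρ)/p^a ≥ 0` for `a ≥ 1`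
(take `u p 0 = 0`, or use `max`); the weight of `d` is `GG d (∏_{p ∣ d} hh p) / d`
(`Nat.factorization_prod_pow_eq_self`).  Then `∑_{a ∈ Icc 1 N} u p a ≤ hh p ((e-1)/p + 40/p²)` by
LOC, and EPA.  (`hh ≥ 0` because `kp θ i < p` for `p ∈ pb J i`, `i < J`: `kp θ i ≤ 2^i < 2^J < p`.) -/
def EpbStmt : Prop := ∃ C : ℝ, 1 ≤ C ∧ ∀ (θ : ℝ) (a J j N k : ℕ), 0 < θ → θ < 1 → 1 ≤ a → 1 ≤ J →
  j ≤ J → N ≤ (lw J 0) ^ (4 * a) → 1 ≤ k →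
  ∑ d ∈ (Icc 1 N).filter (fun d => d.primeFactors ⊆ PP J j N k),
      GG d * (∏ p ∈ d.primeFactors, hh θ J p) / d
    ≤ C * (4 * (a : ℝ) * 2 ^ j) ^ (Real.exp 1 - 1) * (k.divisors.card : ℝ) ^ 4

/-! ### Sieve -/

/-- BHA, the Brun–Hooley sieve with arbitrary local conditions, both bounds (STRONG).
Proof.  Notation of Common_Sieve: `U_r(f) = btr f (blk r) (b r)`, `E_r(f) = esum f (blk r) (b r + 1)`,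
`a_r(f) = ∏_{p ∈ blk r} (1 - f p)`.  For the indicator `f_n p = 1` if `P p n`, else `0`, and for the
density `g p = κ p / p`: `bonferroni` gives `0 ≤ a_r ≤ U_r ≤ a_r + E_r` (`b r` even).  Density:
`E_r(g) ≤ S_r^(b_r+1)/(b_r+1)! ≤ ε_r exp(-2 S_r)` (`esum_le`) and `a_r(g) ≥ exp(-2 S_r)`
(`1 - x ≥ exp(-2x)` on `[0, 1/2]`), so `E_r(g) ≤ ε_r a_r(g)` and `U_r(g) ≤ (1 + ε_r) a_r(g)`.
Average: every product over `r < R` of `U_r` (or of `E_s` and the other `U_r`) is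
`∑_D λ(D) ∏_{p ∈ D} f p` over sets `D` (`expand`) with `|λ| ≤ 1`, `∏_{p ∈ D} p ≤ Z`, at most `Z` sets
(`prod_le_of_mem_fam`, `card_le_of_prod_le`), and `count_crt` gives
`|∑_n ∏_{p ∈ D} f_n p - Y ∏_{p ∈ D} g p| ≤ ∏_{p ∈ D} κ p ≤ ∏_{p ∈ D} p ≤ Z`; so the error is `≤ Z²`
(adapt `Pool.Agent.Common_Sieve.avg`, replacing `2 ^ D.card` by `∏ p ∈ D, p`).
Upper bound: `N = ∑_n ∏_r a_r(f_n) ≤ ∑_n ∏_r U_r(f_n) ≤ Y ∏ U_r(g) + Z² ≤ Y V ∏ (1 + ε_r) + Z²` and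
`∏ (1 + ε_r) ≤ exp(1/4) ≤ 2`.  Lower bound: `prod_sub_prod_le` for `f_n`, summed over `n`:
`N ≥ Y ∏ U_r(g) - Z² - ∑_s (Y E_s(g) ∏_{r ≠ s} U_r(g) + Z²) ≥ Y V (1 - exp(1/4) ∑ ε_s) - (R+1) Z²`
and `exp(1/4)/4 ≤ 1/2`.  See `defect` in Common_Sieve/Main.lean for the same computation. -/
def BhaStmt : Prop := ∀ (R : ℕ) (blk : ℕ → Finset ℕ) (P : ℕ → ℤ → Prop)
  [∀ p n, Decidable (P p n)] (κ x b : ℕ → ℕ) (S ε : ℕ → ℝ),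
  (∀ p n, P p (n + p) ↔ P p n) → (∀ i j, i ≠ j → Disjoint (blk i) (blk j)) →
  (∀ r, ∀ p ∈ blk r, p.Prime ∧ p ≤ x r ∧ 2 * κ p ≤ p ∧ cnt P p = κ p) →
  (∀ r, 1 ≤ x r) → (∀ r, Even (b r)) → (∀ r, 0 ≤ S r) → (∀ r, 0 ≤ ε r) →
  (∀ r, ∑ p ∈ blk r, (κ p : ℝ) / p ≤ S r) →
  (∀ r, S r ^ (b r + 1) / (Nat.factorial (b r + 1) : ℝ) ≤ ε r * Real.exp (-(2 * S r))) →
  ∑ r ∈ range R, ε r ≤ 1 / 4 →
  ∀ (X : ℤ) (Y : ℕ),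
    (Y : ℝ) * (∏ r ∈ range R, ∏ p ∈ blk r, (1 - (κ p : ℝ) / p)) / 2
        - (R + 1) * ((∏ r ∈ range R, x r ^ (b r + 1) : ℕ) : ℝ) ^ 2
      ≤ (((Ioc X (X + Y)).filter (fun n => ∀ r ∈ range R, ∀ p ∈ blk r, ¬ P p n)).card : ℝ) ∧
    (((Ioc X (X + Y)).filter (fun n => ∀ r ∈ range R, ∀ p ∈ blk r, ¬ P p n)).card : ℝ)
      ≤ 2 * (Y : ℝ) * (∏ r ∈ range R, ∏ p ∈ blk r, (1 - (κ p : ℝ) / p))
        + ((∏ r ∈ range R, x r ^ (b r + 1) : ℕ) : ℝ) ^ 2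

/-- CNT.  Proof: for each `k ∈ Icc 1 m` exactly one residue `s` mod `p` has `p ∣ A s + B + σ k`
(`card_dvd_one` of Common_Sieve/Apps.lean), and different `k` give different residues (if the same
`s` works for `k, k'` then `p ∣ σ (k - k')`, so `p ∣ k - k'`, `|k - k'| < m < p`).  So the set is in
bijection with `Icc 1 m` (`Finset.card_biUnion`, or `s ↦ k` unique). -/
def CntStmt : Prop := ∀ (p m : ℕ) (A B σ : ℤ), p.Prime → ¬ (p : ℤ) ∣ A → (σ = 1 ∨ σ = -1) → m < p →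
  ((range p).filter (fun s : ℕ => ∃ k ∈ Icc 1 m, (p : ℤ) ∣ A * s + B + σ * k)).card = m

/-- PAR (choice of the truncation parameters).  Proof.  Write `κ = kp θ j ≥ 1`, `n = b_j + 1 ≥ 2cκ`.
(i) `n! ≥ (n/e)^n` (`Nat.factorial` lower bound, or `exp n ≥ n^n/n!` from
`Real.pow_div_factorial_le_exp`), so `(Mκ)^n/n! ≤ (e M κ/n)^n`.  Take `c ≥ e^4 (M + 1)`: then
`e M κ/n ≤ e^(-3)` , `2 M κ ≤ n`, and `(Mκ)^n/n! ≤ e^(-3n) ≤ e^(-n) e^(-n)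
≤ exp(-(j+3)) exp(-2Mκ)` as `n ≥ j + 3`.
(ii) both sides are powers of `2`: the exponent on the left is
`∑_{j<J} J 2^(J-j) (2cκ_j + 2j + 5)`, with `κ_j ≤ 2^(θ j)`; and
`∑_j 2^(-j) (2c 2^(θ j) + 2j + 5) ≤ 2c/(1 - 2^(θ-1)) + 14 ≤ K`, so it is `≤ K J 2^J`. -/
def ParStmt : Prop := ∀ θ M : ℝ, 0 < θ → θ < 1 → 0 ≤ M → ∃ c K : ℕ,
  (∀ j : ℕ, (M * (kp θ j : ℝ)) ^ (2 * (c * kp θ j + j + 2) + 1)
      / (Nat.factorial (2 * (c * kp θ j + j + 2) + 1) : ℝ)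
    ≤ Real.exp (-((j : ℝ) + 3)) * Real.exp (-(2 * (M * (kp θ j : ℝ))))) ∧
  (∀ J : ℕ, ∏ j ∈ range J, (lw J j) ^ (2 * (c * kp θ j + j + 2) + 1) ≤ (lw J 0) ^ K)

/-- SVE (the sieve for our set).  Proof: BHA with `R = J`, `x r = lw J r`,
`b r = 2 (c kp θ r + r + 2)` (PAR with `M` of PBM), `S r = M kp θ r`, `ε r = exp(-(r+3))`
(`∑ ε_r ≤ e^(-3)/(1 - e^(-1)) ≤ 1/4`), `κ p = kp θ j` for `p ∈ pb J j` (`κ p =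
∑ j ∈ (range J).filter (p ∈ pb J ·), kp θ j`, the blocks are disjoint as `lw J` is decreasing),
`Z ≤ (lw J 0)^K0`.  For `r ≥ J` the blocks are empty.  `2 κ p ≤ p`: `kp θ j ≤ 2^j ≤ 2^(J-1)` and
`p > lw J (j+1) ≥ 2^J`.
Lower bound: `blk r = pb J r`, `P p s = ∃ k ∈ Icc 1 (κ p), p ∣ W s + σ k`, `X = 0`, `Y = T`;
`cnt = κ p` by CNT (`p ∤ W`: `p > 2^J`), error `(J+1) Z² ≤ (lw J 0)^(2 K0 + 1)` (`J + 1 ≤ 2^(J 2^J)`).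
Upper bound: the `t ∈ Icc 1 T` with `d ∣ t - r` are `t = r0 + d s` with `0 ≤ r0 < d` and
`s ∈ Ioc (-1) (-1 + Y)`, `Y = T/d + 1` (natural division; `Y ≤ T/d + 1` real); use
`blk r = (pb J r).filter (¬ · ∣ d)` and `P p s = ∃ k ∈ Icc 1 (κ p), p ∣ W (r0 + d s) + σ k`,
`cnt = κ p` by CNT with `A = W d`, `B = W r0` (`p ∤ W d`).  The sum over a smaller block is still
`≤ S r`.  Transport the count from `s : ℤ` to `t : ℕ` by an injection (only `≤` is needed in the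
upper bound, equality or `≥` in the lower bound). -/
def SveStmt : Prop := ∀ θ : ℝ, 0 < θ → θ < 1 → ∃ K : ℕ, ∀ (J T : ℕ) (σ : ℤ), (σ = 1 ∨ σ = -1) →
  ((T : ℝ) * VV θ J / 2 - ((lw J 0 : ℕ) : ℝ) ^ K ≤ ((SS θ J σ T).card : ℝ)) ∧
  (∀ (d : ℕ) (r : ℤ), 1 ≤ d →
    ((((SS θ J σ T)).filter (fun t : ℕ => (d : ℤ) ∣ (t : ℤ) - r)).card : ℝ)
      ≤ 2 * ((T : ℝ) / d + 1) * VD θ J d + ((lw J 0 : ℕ) : ℝ) ^ K)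

/-- VDB.  Proof: for `p ∈ pb J j`, `j < J`, one has `0 < 1 - kp θ j/p` (`kp θ j ≤ 2^j < 2^J < p`).
`VV = VD · ∏_{j<J} ∏_{p ∈ pb J j, p ∣ d} (1 - kp θ j/p)` (`Finset.prod_filter_mul_prod_filter_not`),
and `∏_{p ∣ d} hh p = ∏_{p ∣ d} ∏_{j<J, p ∈ pb J j} (1 - kp θ j/p)⁻¹` is the inverse of that second
factor (swap the two products: `Finset.prod_comm'`, for `d ≥ 1` the primes of the block dividing `d`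
are the members of `d.primeFactors` in the block).  Also `1 ≤ hh`, `0 < VV`. -/
def VdbStmt : Prop := ∀ (θ : ℝ) (J : ℕ), 0 < θ → θ < 1 →
  0 < VV θ J ∧ VV θ J ≤ 1 ∧ (∀ p, 1 ≤ hh θ J p) ∧
  ∀ d : ℕ, 1 ≤ d → VD θ J d ≤ VV θ J * ∏ p ∈ d.primeFactors, hh θ J p

/-- VLB.  Proof: `1 - x ≥ exp(-2x)` for `0 ≤ x ≤ 1/2` (`2 kp θ j ≤ p` for `p ∈ pb J j`), so
`VV ≥ exp(-2 ∑_{j<J} kp θ j ∑_{p ∈ pb J j} 1/p) ≥ exp(-2 M ∑_{j<J} 2^j) ≥ exp(-2 M 2^J)`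
(PBM, `kp θ j ≤ 2^(θ j) ≤ 2^j`), and `2^(J 2^J) = exp(J 2^J log 2) ≥ exp(2 M 2^J)` as soon as
`J log 2 ≥ 2 M`. -/
def VlbStmt : Prop := ∀ θ : ℝ, 0 < θ → θ < 1 → ∃ J0 : ℕ, ∀ J : ℕ, J0 ≤ J →
  1 ≤ VV θ J * ((lw J 0 : ℕ) : ℝ)

/-- SIZ.  Proof: `WW J = primorial(2^J)^(J+1) ≤ 4^(2^J (J+1)) = 2^(2 (J+1) 2^J) ≤ (lw J 0)^4` for
`J ≥ 1` (`primorial_le_four_pow` or similar), so `TT a J ≥ (lw J 0)^(4a-4)` for `a ≥ 1`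
(`Nat.le_div_iff_mul_le`).  Take `a = K + 8`: with VLB, `TT · VV ≥ (lw J 0)^(4a-5)`, and
`(lw J 0)^K · 2 (lw J 0)^(3a) ≤ (lw J 0)^(K+1+3a) ≤ (lw J 0)^(4a-5)` because `2 ≤ lw J 0` and
`K + 6 ≤ a`; the other inequalities are weaker (`4 ≤ (lw J 0)^2`, `lw J 0 ≤ ..`).
`WW J * TT a J ≤ (lw J 0)^(4a)` is `Nat.mul_div_le`. -/
def SizStmt : Prop := ∀ (θ : ℝ) (K : ℕ), 0 < θ → θ < 1 → ∃ a J0 : ℕ, 1 ≤ a ∧ ∀ J : ℕ, J0 ≤ J →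
  1 ≤ J ∧ 1 ≤ TT a J ∧ 2 * (lw J 0) ^ (3 * a) ≤ TT a J ∧ lw J 0 ≤ (lw J 0) ^ (4 * a) ∧
  2 * (lw J 0) ^ (3 * a) ≤ (lw J 0) ^ (4 * a) ∧
  WW J * TT a J ≤ (lw J 0) ^ (4 * a) ∧
  ((lw J 0 : ℕ) : ℝ) ^ K * (2 * ((lw J 0 : ℕ) : ℝ) ^ (3 * a)) ≤ (TT a J : ℝ) * VV θ J ∧
  4 * ((lw J 0 : ℕ) : ℝ) ^ K ≤ (TT a J : ℝ) * VV θ J

/-! ### Arithmetic of `n + σ k`, `n = W t` -/

/-- STA.  Proof: `g = gcd(W, k)` divides `W t + σ k`, so `lf = g · (lf/g)`, and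
`τ(g m) ≤ τ(g) τ(m)` (`Nat.divisors_mul`, `Finset.card_mul_le`, or `tk_mul_le` with exponent 1),
`τ(g) ≤ τ(k)` as `g ∣ k`, `k ≠ 0` (`Nat.divisors_subset_of_dvd`). -/
def StaStmt : Prop := ∀ (J k t : ℕ) (σ : ℤ), 1 ≤ k →
  Nat.gcd (WW J) k ∣ lf J σ k t ∧
  (lf J σ k t).divisors.card ≤ k.divisors.card * (lf J σ k t / Nat.gcd (WW J) k).divisors.card

/-- STB (one residue class).  Proof: with `g = gcd(W, k)`, `W = g W'`, `k = g k'`, `gcd(W', k') = 1`: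
`lf/g = |W' t + σ k'|`.  If no `t` has `d ∣ lf/g`, take `r = 0`.  Otherwise a prime `p` dividing `d`
and `W'` would divide `σ k'`, hence `k'`: impossible; so `gcd(d, W') = 1`.  Take `r = t0` one such
`t0` (that is all: for another `t`, `d ∣ W' (t - t0)`, so `d ∣ t - t0`,
`IsCoprime.dvd_of_dvd_mul_left`). -/
def StbStmt : Prop := ∀ (J k d : ℕ) (σ : ℤ), (σ = 1 ∨ σ = -1) → 1 ≤ k → 1 ≤ d →
  ∃ r : ℤ, ∀ t : ℕ, d ∣ lf J σ k t / Nat.gcd (WW J) k → (d : ℤ) ∣ (t : ℤ) - r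

/-- STC (the primes of the cofactor).  Proof: let `g = gcd(W, k)`, `W = g W'`, `k = g k'`,
`p ∣ |W' t + σ k'|`.  Case `p ≤ 2^J`: `W.factorization p = J + 1` (`p ∣ primorial(2^J)` exactly
once, it is squarefree).  If `p^(J+1) ∤ k` then `p^(J+1) ∤ g`, so `p ∣ W'` (because
`W = g W'` and `p^(J+1) ∣ W`), so `p ∣ σ k'`, `p ∣ k'`, contradiction with `gcd(W', k') = 1`.
Case `p > 2^J = lw J J` and, by contradiction, `p ≤ lw J j` : then `j < J`, and with the largest `i`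
with `p ≤ lw J i` one has `j ≤ i < J` and `p ∈ pb J i` (`lw J` is antitone); `k ≤ kp θ j ≤ kp θ i`
(monotone in the index, `θ > 0`), and `p ∣ W t + σ k` as `|W t + σ k| = g |W' t + σ k'|`:
contradiction with `t ∈ SS`. -/
def StcStmt : Prop := ∀ (θ : ℝ) (J T j k t p : ℕ) (σ : ℤ), 0 < θ → (σ = 1 ∨ σ = -1) → 1 ≤ J →
  j ≤ J → 1 ≤ k → (j < J → k ≤ kp θ j) → t ∈ SS θ J σ T → p.Prime →
  p ∣ lf J σ k t / Nat.gcd (WW J) k →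
  lw J j < p ∨ (p ≤ 2 ^ J ∧ p ^ (J + 1) ∣ k)

/-! ### Moment bound, union bound, conclusion -/

/-- MOM (STRONG).  Proof.  `K` from SVE, then `a`, `J0` from SIZ; write `w = lw J 0`, `T = TT a J`,
`V = VV θ J`, `g = gcd(W, k)`, `m_t = lf J σ k t / g`, `N = 2 w^(3a) ≤ T`, `N ≤ w^(4a)`.
Lower bound: SVE and `w^K ≤ T V/4`.  Moment: `m_t ≤ lf ≤ W T + k ≤ w^(4a) + w ≤ 2 w^(4a)`, so
`d ∣ m_t`, `d^4 ≤ m_t^3` imply `d^4 ≤ 8 w^(12a) ≤ N^4`, `d ≤ N`; if `m_t = 0` then `tk rho m_t = 0`.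
By DIV `∑_{t ∈ SS} tk rho m_t ≤ 7 ∑_{t ∈ SS} ∑_{d ∈ Icc 1 N, d ∣ m_t} GG d`; by STC every prime
factor `p` of such a `d` is in `PP J j N k` (`p ≤ d ≤ N`); swap the sums:
`≤ 7 ∑_{d ∈ Icc 1 N, d.primeFactors ⊆ PP} GG d · #{t ∈ SS : d ∣ m_t}`.  By STB and SVE, VDB the count
is `≤ 2 (T/d + 1) V h(d) + w^K` with `h(d) = ∏_{p ∣ d} hh p ≥ 1`; `T/d ≥ 1` as `d ≤ N ≤ T`, and
`w^K ≤ T V/N ≤ (T/d) V h(d)` by SIZ, so the count is `≤ 5 (T/d) V h(d)`.  Total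
`≤ 35 T V ∑_d GG d h(d)/d`, then EPB, and `(4 a 2^j)^(e-1) = (4a)^(e-1) (2^j)^(e-1)`. -/
def MomStmt : Prop := ∀ θ : ℝ, 0 < θ → θ < 1 → ∃ (a J0 : ℕ) (C : ℝ), 1 ≤ a ∧ 0 < C ∧
  ∀ (J : ℕ) (σ : ℤ), J0 ≤ J → (σ = 1 ∨ σ = -1) →
    1 ≤ J ∧ WW J * TT a J ≤ (lw J 0) ^ (4 * a) ∧
    0 < (TT a J : ℝ) * VV θ J ∧
    (TT a J : ℝ) * VV θ J / 4 ≤ ((SS θ J σ (TT a J)).card : ℝ) ∧
    ∀ k j : ℕ, 1 ≤ k → k ≤ lw J 0 → j ≤ J → (j < J → k ≤ kp θ j) →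
      ∑ t ∈ SS θ J σ (TT a J), tk rho (lf J σ k t / Nat.gcd (WW J) k)
        ≤ C * ((TT a J : ℝ) * VV θ J) * ((2 : ℝ) ^ j) ^ (Real.exp 1 - 1)
          * (k.divisors.card : ℝ) ^ 4

/-- CHO.  Proof: if `k ≤ kp θ j` for some `j < J`, take the least such `j` (`Nat.find`), otherwise
`j = J`.  If `j = 0` then `2^0 = 1 ≤ 2 k^(1/θ)`.  If `j ≥ 1` then `kp θ (j-1) < k`, so
`2^(θ (j-1)) < k` (`Nat.floor_lt`), hence `2^(j-1) < k^(1/θ)` (`Real.rpow_lt_rpow` and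
`(2^(θ (j-1)))^(1/θ) = 2^(j-1)`), `2^j = 2 · 2^(j-1) ≤ 2 k^(1/θ)`. -/
def ChoStmt : Prop := ∀ (θ : ℝ) (J k : ℕ), 0 < θ → 1 ≤ k →
  ∃ j : ℕ, j ≤ J ∧ (j < J → k ≤ kp θ j) ∧ (2 : ℝ) ^ j ≤ 2 * (k : ℝ) ^ (1 / θ)

/-- SER.  Proof: `τ(k)^6 ≤ C k^(η/2)` (`Pool.Agent.Helper69_Weyl.exists_card_divisors_le` with
`δ = η/12`), and `∑ k^(-(1+η/2))` converges (`Real.summable_nat_rpow`,
`Summable.sum_le_tsum`). -/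
def SerStmt : Prop := ∀ η : ℝ, 0 < η → ∃ C : ℝ, 0 < C ∧ ∀ N : ℕ,
  ∑ k ∈ Icc 1 N, (k.divisors.card : ℝ) ^ 6 * (k : ℝ) ^ (-(1 + η)) ≤ C

/-- UNI (union bound, STRONG).  Proof.  Let `η = B/log 2 - e > 0` and
`θ = 1/(1 + η/(2(e-1))) ∈ (0,1)`, so `(e-1)/θ - B/log 2 = -(1 + η/2)`.  `a, J0, C` from MOM.
For `k ∈ Icc 1 (lw J 0)` take `j` from CHO; `(2^j)^(e-1) ≤ 4 k^((e-1)/θ)` (`2^(e-1) ≤ 4`).  Let
`bad_k = {t ∈ SS : τ(lf) > F k^B}`.  For `t ∈ bad_k`, STA: `τ(k) τ(m_t) > F k^B`, so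
`tk rho m_t > (F k^B/τ(k))^ρ`, and Markov:
`#bad_k ≤ (τ(k)/(F k^B))^ρ · C T V 4 k^((e-1)/θ) τ(k)^4 ≤ 4 C F^(-ρ) T V τ(k)^6 k^(-(1+η/2))`
(`τ(k)^ρ ≤ τ(k)^2`, `k^(Bρ) = k^(B/log 2)`).  Sum over `k` with SER: `≤ 4 C C' F^(-ρ) T V`.  Choose
`F ≥ 1` with `4 C C' F^(-ρ) < 1/4`: the union of the `bad_k` has fewer than `T V/4 ≤ #SS`
elements, so some `t ∈ SS` is in no `bad_k`. -/
def UniStmt : Prop := ∀ B : ℝ, Real.exp 1 * Real.log 2 < B → ∃ (a J0 : ℕ) (F : ℝ), 1 ≤ a ∧ 1 ≤ F ∧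
  ∀ (J : ℕ) (σ : ℤ), J0 ≤ J → (σ = 1 ∨ σ = -1) → 1 ≤ J ∧ WW J * TT a J ≤ (lw J 0) ^ (4 * a) ∧
    ∃ t : ℕ, 1 ≤ t ∧ t ≤ TT a J ∧ ∀ k ∈ Icc 1 (lw J 0),
      ((lf J σ k t).divisors.card : ℝ) ≤ F * (k : ℝ) ^ B

/-- FIN.  Proof: UNI.  Given `N0`, take `J ≥ J0`, `J ≥ N0`, `J ≥ 1`, `n = W t ≥ W ≥ 2^(J+1) ≥ N0`
(`2 ∣ primorial (2^J)`).  For `k ≤ lw J 0`: UNI.  For `k > lw J 0`: `|n + σ k| ≤ n + k ≤
(lw J 0)^(4a) + k ≤ 2 k^(4a)`, and it is nonzero or `τ = 0`; by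
`Pool.Agent.Helper69_Weyl.exists_card_divisors_le` with `δ = B/(4a)`:
`τ ≤ C_δ (2 k^(4a))^δ = C_δ 2^δ k^B`.  So the constant `max F (C_δ 2^δ)` works. -/
def FinStmt : Prop := ∀ B : ℝ, Real.exp 1 * Real.log 2 < B → ∀ σ : ℤ, (σ = 1 ∨ σ = -1) →
  ∃ C : ℝ, 0 < C ∧ ∀ N0 : ℕ, ∃ n : ℕ, N0 ≤ n ∧ ∀ k : ℕ, 1 ≤ k →
    ((((n : ℤ) + σ * k).natAbs.divisors.card : ℕ) : ℝ) ≤ C * (k : ℝ) ^ B

/-- BET (final form for MP_ba39b0_nt).  Proof: FIN with `σ = -1` and `B` with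
`e log 2 < B < 1/β` (if `β > 0`; if `β ≤ 0` use any `B`: `τ^β ≤ 1`).  For `1 ≤ m < n`, `k = n - m`:
`τ(m)^β ≤ (C k^B)^β = C^β k^(Bβ)` with `Bβ < 1`, and `C^β x^(Bβ) ≤ x + C'` for all `x ≥ 1`, with
`C' = (C^β)^(1/(1-Bβ))` (if `x ≥ C'` then `C^β x^(Bβ) ≤ x`, else `C^β x^(Bβ) ≤ C^β C'^(Bβ) = C'`).
Infinitely many `n`: `Set.infinite_of_not_bddAbove` or `Set.infinite_of_forall_exists_ge`. -/
def BetStmt : Prop := ∀ β : ℝ, 0 < β → β < 1 / (Real.exp 1 * Real.log 2) →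
  ∃ C : ℝ, 0 < C ∧
    {n : ℕ | ∀ m : ℕ, 1 ≤ m → m < n → (m : ℝ) + (m.divisors.card : ℝ) ^ β ≤ n + C}.Infinite

end Pool.Agent.TBP
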