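import Pool.Agent.Common_Sieve.Apps
import Pool.Agent.Common_Mertens.Mertens
import Pool.Agent.Helper46_MNO.Tau

set_option autoImplicit false

/-!
Squad TBP (MP_ba39b0_nt).  Definitions for

THEOREM P.  For every `B > e log 2 = 1.884..` there is `C` such that for infinitely many `n` one has
`τ(n - k) ≤ C k ^ B` for all `1 ≤ k < n` (and the same for `n + k`, `k ≥ 1`).

`lw J j = 2 ^ (J 2 ^ (J - j))` are the sieve levels (`lw J J = 2 ^ J`, `lw J 0 = 2 ^ (J 2 ^ J)`,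
`lw J j = lw J (j+1) ^ 2` for `j < J`).  `kp θ j = ⌊2 ^ (θ j)⌋` is the number of shifts sieved with
the primes of the block `pb J j`, the primes in `(lw J (j+1), lw J j]`.  `WW J` is the modulus,
`lf J σ k t = |W t + σ k|`, `SS` the sieve set, `VV` its density, `VD` the density without the
primes dividing `d`, `tk rho` (of Helper46_MNO) the function `τ ^ (1 / log 2)`, `GG` its
coefficients: `tk rho m = ∑ d ∣ m, GG d`.
-/

namespace Pool.Agent.TBP

open Finset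

/-- sieve levels -/
def lw (J j : ℕ) : ℕ := 2 ^ (J * 2 ^ (J - j))

/-- number of shifts sieved with the primes of block `j` -/
noncomputable def kp (θ : ℝ) (j : ℕ) : ℕ := ⌊(2 : ℝ) ^ (θ * j)⌋₊

/-- block `j` of primes -/
def pb (J j : ℕ) : Finset ℕ := (Ioc (lw J (j + 1)) (lw J j)).filter Nat.Prime

/-- the modulus -/
def WW (J : ℕ) : ℕ := (primorial (2 ^ J)) ^ (J + 1)

/-- `|W t + σ k|` -/
def lf (J : ℕ) (σ : ℤ) (k t : ℕ) : ℕ := ((WW J : ℤ) * t + σ * k).natAbs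

/-- the sieve set -/
noncomputable def SS (θ : ℝ) (J : ℕ) (σ : ℤ) (T : ℕ) : Finset ℕ :=
  (Icc 1 T).filter (fun t => ∀ j ∈ range J, ∀ p ∈ pb J j, ∀ k ∈ Icc 1 (kp θ j),
    ¬ (p : ℤ) ∣ (WW J : ℤ) * t + σ * k)

/-- the density of the sieve set -/
noncomputable def VV (θ : ℝ) (J : ℕ) : ℝ :=
  ∏ j ∈ range J, ∏ p ∈ pb J j, (1 - (kp θ j : ℝ) / p)

/-- the density with only the primes not dividing `d` -/
noncomputable def VD (θ : ℝ) (J d : ℕ) : ℝ :=
  ∏ j ∈ range J, ∏ p ∈ (pb J j).filter (fun p => ¬ p ∣ d), (1 - (kp θ j : ℝ) / p)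

/-- the factor lost at a prime (`1` if `p` lies in no block) -/
noncomputable def hh (θ : ℝ) (J p : ℕ) : ℝ :=
  ∏ j ∈ (range J).filter (fun j => p ∈ pb J j), (1 - (kp θ j : ℝ) / p)⁻¹

/-- `ρ = 1 / log 2`, so that `2 ^ ρ = e` -/
noncomputable def rho : ℝ := 1 / Real.log 2

/-- coefficients of `τ ^ ρ` -/
noncomputable def GG (m : ℕ) : ℝ :=
  ∏ p ∈ m.primeFactors, (((m.factorization p : ℝ) + 1) ^ rho - (m.factorization p : ℝ) ^ rho)

/-- the primes that may divide the cofactor of `n + σ k` -/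
def PP (J j N k : ℕ) : Finset ℕ :=
  (Icc 1 N).filter (fun p => p.Prime ∧ (lw J j < p ∨ (p ≤ 2 ^ J ∧ p ^ (J + 1) ∣ k)))

/-- the number of values of `t` -/
def TT (a J : ℕ) : ℕ := (lw J 0) ^ (4 * a) / WW J

end Pool.Agent.TBP
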