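import Pool.Agent.TBP.StmtsA

set_option autoImplicit false

/-!
Squad TBP (MP_ba39b0_nt), block C.  THEOREM M (most shifts).  Let `log 2 < B ≤ e log 2`,
`x = B / log 2`, `h = x log x - x + 1`.  For every `η > 1 - h` there is `C` such that for infinitely
many `n`, for every `K ≥ 1`, at most `C K ^ η` of the shifts `k ≤ K`, `k < n` have `τ(n - k) > k ^ B`.
For `B = 1` (the inequality of Q1) this is every `η > (1 + log log 2)/log 2 = 0.91392..`.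

All rows are the rows of StmtsA with the exponent `rho` replaced by a real `r`, `0 < r ≤ rho`
(copy the landed file of the same name and change `rho` into `r`): the proofs are the same.
-/

namespace Pool.Agent.TBP

open Finset
open Pool.Agent.Common_Sieve Pool.Agent.Helper46_MNO

/-- coefficients of `τ ^ r` -/
noncomputable def GR (r : ℝ) (m : ℕ) : ℝ :=
  ∏ p ∈ m.primeFactors, (((m.factorization p : ℝ) + 1) ^ r - (m.factorization p : ℝ) ^ r)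

/-- CX2.  Proof from CVX (row of StmtsA, `Pool.Agent.TBP.H10.cvx`): divide by `(a+1)^ρ`: CVX says
`a ≤ e ∑_{i<a} ((i+1)/(a+1))^ρ`; for `0 < r ≤ ρ` and `(i+1)/(a+1) ≤ 1` one has
`((i+1)/(a+1))^ρ ≤ ((i+1)/(a+1))^r` (`Real.rpow_le_rpow_of_exponent_ge`); multiply by `(a+1)^r`. -/
def Cx2Stmt : Prop := ∀ (r : ℝ) (a : ℕ), 0 < r → r ≤ rho →
  (a : ℝ) * ((a : ℝ) + 1) ^ r ≤ Real.exp 1 * ∑ i ∈ range a, ((i : ℝ) + 1) ^ r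

/-- GS2.  Proof: as GSM (Helper49_TBP/GSM.lean), with `r` for `rho` (`0 < r`). -/
def Gs2Stmt : Prop := ∀ r : ℝ, 0 < r →
  (∀ m : ℕ, 0 ≤ GR r m) ∧ (GR r 1 = 1) ∧ (∀ a b : ℕ, Nat.Coprime a b → 0 < a → 0 < b →
    GR r (a * b) = GR r a * GR r b) ∧
  (∀ m : ℕ, 1 ≤ m → ∑ d ∈ m.divisors, GR r d = tk r m)

/-- DI2.  Proof: as DIV (Helper92_TBP/DIV.lean), with `r` for `rho`, CX2 for CVX, GS2 for GSM. -/
def Di2Stmt : Prop := ∀ (r : ℝ) (m : ℕ), 0 < r → r ≤ rho → 1 ≤ m →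
  tk r m ≤ 7 * ∑ d ∈ m.divisors.filter (fun d => d ^ 4 ≤ m ^ 3), GR r d

/-- LO2.  Proof: as LOC (Helper64_TBP/LOC.lean), with `r` for `rho`: the term `a = 1` is
`(2^r - 1)/p` exactly, and `(a+1)^r ≤ (a+1)^2` as `r ≤ rho ≤ 2`. -/
def Lo2Stmt : Prop := ∀ (r : ℝ) (p N : ℕ), 0 < r → r ≤ rho → p.Prime →
  ∑ a ∈ Icc 1 N, (((a : ℝ) + 1) ^ r - (a : ℝ) ^ r) / (p : ℝ) ^ a
    ≤ ((2 : ℝ) ^ r - 1) / p + 40 / (p : ℝ) ^ 2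

/-- EA2.  Proof: as EPA (Helper95_TBP/EPA.lean), with `z - 1`, `z = 2^r`, `1 ≤ z ≤ e`, for `e - 1`
(`0 ≤ z - 1 ≤ e - 1` is all that is used about the number; `C` does not depend on `r`). -/
def Ea2Stmt : Prop := ∃ C : ℝ, 1 ≤ C ∧ ∀ (r θ : ℝ) (a J j N k : ℕ), 0 < r → r ≤ rho → 0 < θ →
  θ < 1 → 1 ≤ a → 1 ≤ J → j ≤ J → N ≤ (lw J 0) ^ (4 * a) → 1 ≤ k →
  ∏ p ∈ PP J j N k, (1 + hh θ J p * (((2 : ℝ) ^ r - 1) / p + 40 / (p : ℝ) ^ 2))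
    ≤ C * (4 * (a : ℝ) * 2 ^ j) ^ ((2 : ℝ) ^ r - 1) * (k.divisors.card : ℝ) ^ 4

/-- EB2.  Proof: as EPB (Helper86_TBP/EPB.lean), from EUL, LO2, EA2, VDB. -/
def Eb2Stmt : Prop := ∃ C : ℝ, 1 ≤ C ∧ ∀ (r θ : ℝ) (a J j N k : ℕ), 0 < r → r ≤ rho → 0 < θ →
  θ < 1 → 1 ≤ a → 1 ≤ J → j ≤ J → N ≤ (lw J 0) ^ (4 * a) → 1 ≤ k →
  ∑ d ∈ (Icc 1 N).filter (fun d => d.primeFactors ⊆ PP J j N k),
      GR r d * (∏ p ∈ d.primeFactors, hh θ J p) / d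
    ≤ C * (4 * (a : ℝ) * 2 ^ j) ^ ((2 : ℝ) ^ r - 1) * (k.divisors.card : ℝ) ^ 4

/-- MO2.  Proof: as MOM (Helper94_TBP/MOM.lean), with `r` for `rho`, `σ = -1`, from SVE, VDB, SIZ,
STB, STC, DI2, EB2, GS2. -/
def Mo2Stmt : Prop := ∀ r θ : ℝ, 0 < r → r ≤ rho → 0 < θ → θ < 1 →
  ∃ (a J0 : ℕ) (C : ℝ), 1 ≤ a ∧ 0 < C ∧ ∀ J : ℕ, J0 ≤ J →
    1 ≤ J ∧ WW J * TT a J ≤ (lw J 0) ^ (4 * a) ∧
    0 < (TT a J : ℝ) * VV θ J ∧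
    (TT a J : ℝ) * VV θ J / 4 ≤ ((SS θ J (-1) (TT a J)).card : ℝ) ∧
    ∀ k j : ℕ, 1 ≤ k → k ≤ lw J 0 → j ≤ J → (j < J → k ≤ kp θ j) →
      ∑ t ∈ SS θ J (-1) (TT a J), tk r (lf J (-1) k t / Nat.gcd (WW J) k)
        ≤ C * ((TT a J : ℝ) * VV θ J) * ((2 : ℝ) ^ j) ^ ((2 : ℝ) ^ r - 1)
          * (k.divisors.card : ℝ) ^ 4

/-- UN2 (STRONG; models: Helper81_TBP/UNI.lean).  Proof.  Let `x = B/log 2 ∈ (1, e]`,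
`r = log x/log 2 ∈ (0, rho]`, so `2^r = x`, `h = x log x - x + 1 ≤ 1`
(`h` is increasing on `[1, e]` and `h(e) = 1`; or directly `x log x ≤ x` as `log x ≤ 1`),
`ε = (η - (1 - h))/4 > 0`, `θ = (x-1)/(x-1+ε) ∈ (0,1)`, so `(x-1)/θ = x - 1 + ε`.
`a, J0, C` from MO2.  For `k ∈ Icc 1 (lw J 0)` take `j` from CHO: `(2^j)^(x-1) ≤ 4 k^(x-1+ε)`
(`x - 1 ≤ 2`).  Let `bad_k = {t ∈ SS : k^B < τ(lf)}`.  For `t ∈ bad_k`, STA: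
`τ(k) τ(m_t) > k^B`, so `tk r m_t > (k^B/τ(k))^r` and by Markov
`#bad_k ≤ (τ(k)/k^B)^r · 4 C T V k^(x-1+ε) τ(k)^4 ≤ 4 C T V τ(k)^6 k^(ε - h)`
(`B r = x log x`, `τ(k)^r ≤ τ(k)^2`).  Put `s = 1 - h + 3ε ≥ 0` and
`w(t) = ∑_{k ≤ lw J 0, t ∈ bad_k} k^(-s)`.  Then
`∑_{t ∈ SS} w(t) ≤ 4 C T V ∑_k τ(k)^6 k^(ε - h - s) = 4 C T V ∑_k τ(k)^6 k^(-(1 + 2ε)) ≤ 4 C C' T V`
(SER with `η := 2ε`), and `#SS ≥ T V/4 > 0`, so some `t ∈ SS` has `w(t) ≤ 16 C C'`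
(`Finset.exists_le_of_sum_le` or similar).  For this `t` and `K ≤ lw J 0`:
`#{k ≤ K : t ∈ bad_k} ≤ K^s w(t)` (each such `k` has `k^(-s) ≥ K^(-s)` as `s ≥ 0`)
`≤ 16 C C' K^η` (`s ≤ η`, `K ≥ 1`). -/
def Un2Stmt : Prop := ∀ B η : ℝ, Real.log 2 < B → B ≤ Real.exp 1 * Real.log 2 →
  1 - ((B / Real.log 2) * Real.log (B / Real.log 2) - B / Real.log 2 + 1) < η →
  ∃ (a J0 : ℕ) (C : ℝ), 1 ≤ a ∧ 0 < C ∧ ∀ J : ℕ, J0 ≤ J →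
    1 ≤ J ∧ WW J * TT a J ≤ (lw J 0) ^ (4 * a) ∧
    ∃ t : ℕ, 1 ≤ t ∧ t ≤ TT a J ∧ ∀ K : ℕ, 1 ≤ K → K ≤ lw J 0 →
      (((Icc 1 K).filter (fun k : ℕ => (k : ℝ) ^ B < ((lf J (-1) k t).divisors.card : ℝ))).card : ℝ)
        ≤ C * (K : ℝ) ^ η

/-- FM2 (final form; model: Helper80_TBP/FIN.lean).  Proof: UN2.  Given `N0`, take `J ≥ J0`,
`J ≥ N0`, `J ≥ 1` and large (below), `n = W t ≥ W ≥ J ≥ N0`.  For `k < n`, `lf J (-1) k t = n - k`.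
For `k > lw J 0`, `k < n`: `n - k ≤ n ≤ (lw J 0)^(4a) ≤ k^(4a)`; with `δ = B/(8a)` and
`exists_card_divisors_le δ`: `τ(n-k) ≤ C_δ k^(B/2) ≤ k^B` as soon as `(lw J 0)^(B/2) ≥ C_δ`
(`lw J 0 ≥ 2^J ≥ J`, so for `J` large).  Hence all `k` counted are `≤ lw J 0`, and for
`K > lw J 0` the count for `K` is the count for `K' = lw J 0` (`K'^η ≤ K^η`; `η > 0` because
`h ≤ 1`: `x log x ≤ x` for `x ≤ e`).  Infinitely many `n`: `Set.infinite_of_not_bddAbove`. -/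
def Fm2Stmt : Prop := ∀ B η : ℝ, Real.log 2 < B → B ≤ Real.exp 1 * Real.log 2 →
  1 - ((B / Real.log 2) * Real.log (B / Real.log 2) - B / Real.log 2 + 1) < η →
  ∃ C : ℝ, 0 < C ∧
    {n : ℕ | ∀ K : ℕ, 1 ≤ K →
      (((Icc 1 K).filter (fun k : ℕ => k < n ∧ (k : ℝ) ^ B < ((n - k).divisors.card : ℝ))).card : ℝ)
        ≤ C * (K : ℝ) ^ η}.Infinite

end Pool.Agent.TBP
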